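import Pool.Agent.Helper97.LO.MDDefs

/-!
# Modules: Gallai trichotomy
-/

set_option autoImplicit false
set_option linter.unusedSectionVars false
set_option linter.unusedVariables false

namespace Pool.Agent.Helper97.MD

open Set

variable {M A : Type} {τ : M → M → A}

/-! ### modules -/

theorem isModule_univ : IsModule τ univ := fun z hz => absurd (mem_univ z) hz

theorem isModule_singleton (x : M) : IsModule τ {x} := by
  intro z _ a ha b hb
  rw [mem_singleton_iff.mp ha, mem_singleton_iff.mp hb]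

theorem IsModule.sInter {C : Set (Set M)} (h : ∀ X ∈ C, IsModule τ X) :
    IsModule τ (⋂₀ C) := by
  intro z hz x hx x' hx'
  rw [mem_sInter] at hz
  push Not at hz
  obtain ⟨X, hX, hzX⟩ := hz
  exact h X hX z hzX x (mem_sInter.mp hx X hX) x' (mem_sInter.mp hx' X hX)

theorem IsModule.inter {X Y : Set M} (hX : IsModule τ X) (hY : IsModule τ Y) :
    IsModule τ (X ∩ Y) := by
  intro z hz x hx x' hx'
  by_cases h : z ∈ X
  · exact hY z (fun h' => hz ⟨h, h'⟩) x hx.2 x' hx'.2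
  · exact hX z h x hx.1 x' hx'.1

theorem IsModule.union (hr : Rev τ) {X Y : Set M} (hX : IsModule τ X) (hY : IsModule τ Y)
    (h : (X ∩ Y).Nonempty) : IsModule τ (X ∪ Y) := by
  obtain ⟨w, hwX, hwY⟩ := h
  have key : ∀ z, z ∉ X ∪ Y → ∀ x ∈ X ∪ Y, τ z x = τ z w := by
    intro z hz x hx
    rcases hx with hx | hx
    · exact hX z (fun h => hz (Or.inl h)) x hx w hwX
    · exact hY z (fun h => hz (Or.inr h)) x hx w hwY
  intro z hz x hx x' hx'
  rw [key z hz x hx, key z hz x' hx']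

theorem IsModule.diff (hr : Rev τ) {X Y : Set M} (hX : IsModule τ X) (hY : IsModule τ Y)
    (h' : ¬ Y ⊆ X) : IsModule τ (X \ Y) := by
  obtain ⟨v, hvY, hvX⟩ := not_subset.mp h'
  intro z hz x hx x' hx'
  by_cases h : z ∈ X
  · have hzY : z ∈ Y := by
      by_contra h2
      exact hz ⟨h, h2⟩
    apply hr x z x' z
    rw [hY x hx.2 z hzY v hvY, hY x' hx'.2 z hzY v hvY]
    exact hr _ _ _ _ (hX v hvX x hx.1 x' hx'.1)
  · exact hX z h x hx.1 x' hx'.1

/-- the union of a chain (or directed family) of modules -/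
theorem IsModule.sUnion {C : Set (Set M)} (h : ∀ X ∈ C, IsModule τ X)
    (hc : ∀ X ∈ C, ∀ Y ∈ C, ∃ Z ∈ C, X ⊆ Z ∧ Y ⊆ Z) : IsModule τ (⋃₀ C) := by
  rintro z hz x ⟨X, hX, hx⟩ x' ⟨Y, hY, hx'⟩
  obtain ⟨Z, hZ, hXZ, hYZ⟩ := hc X hX Y hY
  exact h Z hZ z (fun h => hz ⟨Z, hZ, h⟩) x (hXZ hx) x' (hYZ hx')

theorem isModule_mdl (x y : M) : IsModule τ (mdl τ x y) := by
  intro z hz a ha b hb
  have h1 : ∃ X, IsModule τ X ∧ x ∈ X ∧ y ∈ X ∧ z ∉ X := by
    by_contra h
    push Not at h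
    exact hz fun X hX h1 h2 => h X hX h1 h2
  obtain ⟨X, hX, h1, h2, h3⟩ := h1
  exact hX z h3 a (ha X hX h1 h2) b (hb X hX h1 h2)

theorem mdl_subset {X : Set M} (h : IsModule τ X) {x y : M} (hx : x ∈ X) (hy : y ∈ X) :
    mdl τ x y ⊆ X := fun z hz => hz X h hx hy

theorem left_mem_mdl (x y : M) : x ∈ mdl τ x y := fun X _ h _ => h

theorem right_mem_mdl (x y : M) : y ∈ mdl τ x y := fun X _ _ h => h

/-! ### strong modules -/

theorem isStrong_univ : IsStrong τ univ := ⟨isModule_univ, fun Y _ _ => Or.inr (subset_univ Y)⟩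

theorem isStrong_singleton (x : M) : IsStrong τ {x} := by
  refine ⟨isModule_singleton x, fun Y _ h => Or.inl ?_⟩
  obtain ⟨w, hw, hwY⟩ := h
  rw [mem_singleton_iff] at hw
  rw [singleton_subset_iff, ← hw]
  exact hwY

theorem IsStrong.sInter {C : Set (Set M)} (h : ∀ X ∈ C, IsStrong τ X) {x : M}
    (hx : ∀ X ∈ C, x ∈ X) (hne : C.Nonempty) : IsStrong τ (⋂₀ C) := by
  refine ⟨IsModule.sInter fun X hX => (h X hX).1, fun Y hY hm => ?_⟩
  obtain ⟨w, hw, hwY⟩ := hm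
  by_cases hs : ∀ X ∈ C, Y ⊆ X
  · exact Or.inr (subset_sInter hs)
  · push Not at hs
    obtain ⟨X, hX, hYX⟩ := hs
    rcases (h X hX).2 Y hY ⟨w, mem_sInter.mp hw X hX, hwY⟩ with h1 | h1
    · exact Or.inl ((sInter_subset_of_mem hX).trans h1)
    · exact absurd h1 hYX

theorem IsStrong.total {X Y : Set M} (hX : IsStrong τ X) (hY : IsStrong τ Y)
    (h : (X ∩ Y).Nonempty) : X ⊆ Y ∨ Y ⊆ X := hX.2 Y hY.1 h

theorem IsStrong.sUnion {C : Set (Set M)} (h : ∀ X ∈ C, IsStrong τ X) {x : M}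
    (hx : ∀ X ∈ C, x ∈ X) : IsStrong τ (⋃₀ C) := by
  have hdir : ∀ X ∈ C, ∀ Y ∈ C, ∃ Z ∈ C, X ⊆ Z ∧ Y ⊆ Z := by
    intro X hX Y hY
    rcases (h X hX).total (h Y hY) ⟨x, hx X hX, hx Y hY⟩ with h1 | h1
    · exact ⟨Y, hY, h1, subset_rfl⟩
    · exact ⟨X, hX, subset_rfl, h1⟩
  refine ⟨IsModule.sUnion (fun X hX => (h X hX).1) hdir, fun Y hY hm => ?_⟩
  obtain ⟨w, ⟨X1, hX1, hwX1⟩, hwY⟩ := hm
  by_cases hs : ∀ X ∈ C, X ⊆ Y
  · exact Or.inl (sUnion_subset hs)
  · push Not at hs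
    obtain ⟨X0, hX0, hX0Y⟩ := hs
    obtain ⟨X, hX, h0, h1⟩ := hdir X0 hX0 X1 hX1
    rcases (h X hX).2 Y hY ⟨w, h1 hwX1, hwY⟩ with h2 | h2
    · exact absurd (h0.trans h2) hX0Y
    · exact Or.inr (h2.trans (subset_sUnion_of_mem hX))

theorem node_eq (x y : M) : node τ x y = ⋂₀ {X | IsStrong τ X ∧ x ∈ X ∧ y ∈ X} := by
  ext z
  simp only [node, mem_ofPred_eq, mem_sInter]
  constructor
  · intro h X hX
    exact h X hX.1 hX.2.1 hX.2.2
  · intro h X h1 h2 h3
    exact h X ⟨h1, h2, h3⟩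

theorem isStrong_node (x y : M) : IsStrong τ (node τ x y) := by
  rw [node_eq]
  exact IsStrong.sInter (x := x) (fun X hX => hX.1) (fun X hX => hX.2.1)
    ⟨univ, isStrong_univ, mem_univ _, mem_univ _⟩

theorem left_mem_node (x y : M) : x ∈ node τ x y := fun X _ h _ => h

theorem right_mem_node (x y : M) : y ∈ node τ x y := fun X _ _ h => h

theorem node_subset {X : Set M} (h : IsStrong τ X) {x y : M} (hx : x ∈ X) (hy : y ∈ X) :
    node τ x y ⊆ X := fun z hz => hz X h hx hy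

theorem node_comm (x y : M) : node τ x y = node τ y x := by
  apply Subset.antisymm
  · exact node_subset (isStrong_node y x) (right_mem_node y x) (left_mem_node y x)
  · exact node_subset (isStrong_node x y) (right_mem_node x y) (left_mem_node x y)

theorem node_self (x : M) : node τ x x = {x} := by
  apply Subset.antisymm
  · exact node_subset (isStrong_singleton x) rfl rfl
  · rw [singleton_subset_iff]; exact left_mem_node x x

theorem node_total (x y z : M) : node τ x y ⊆ node τ x z ∨ node τ x z ⊆ node τ x y :=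
  (isStrong_node x y).total (isStrong_node x z) ⟨x, left_mem_node x y, left_mem_node x z⟩

/-- being in the same child of a strong module is transitive -/
theorem node_trans {P : Set M} (hP : IsStrong τ P) {x y z : M} (h1 : node τ x y ⊂ P)
    (h2 : node τ y z ⊂ P) : node τ x z ⊂ P := by
  rcases (isStrong_node x y).total (isStrong_node y z)
    ⟨y, right_mem_node x y, left_mem_node y z⟩ with h | h
  · exact (node_subset (isStrong_node y z) (h (left_mem_node x y))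
      (right_mem_node y z)).trans_ssubset h2
  · exact (node_subset (isStrong_node x y) (left_mem_node x y)
      (h (right_mem_node y z))).trans_ssubset h1

/-- the children are strong modules -/
theorem isStrong_child {P : Set M} (hP : IsStrong τ P) (z : M) :
    IsStrong τ {w | node τ z w ⊂ P} := by
  have h1 : {w | node τ z w ⊂ P} = ⋃₀ {X | ∃ w, X = node τ z w ∧ X ⊂ P} := by
    ext v
    constructor
    · intro hv
      exact ⟨node τ z v, ⟨v, rfl, hv⟩, right_mem_node z v⟩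
    · rintro ⟨X, ⟨w, rfl, hw⟩, hv⟩
      exact (node_subset (isStrong_node z w) (left_mem_node z w) hv).trans_ssubset hw
  rw [h1]
  apply IsStrong.sUnion (x := z)
  · rintro X ⟨w, rfl, -⟩
    exact isStrong_node z w
  · rintro X ⟨w, rfl, -⟩
    exact left_mem_node z w

/-! ### the core lemma -/

section Core

variable {Q : Type} {σ : Q → Q → A}

/-- the unordered pairs `p, q` and `u, v` have the same pair of labels -/
def Same (σ : Q → Q → A) (p q u v : Q) : Prop := σ p q = σ u v ∨ σ q p = σ u v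

lemma Same.refl (p q : Q) : Same σ p q p q := Or.inl rfl

lemma Same.swap_left {p q u v : Q} (h : Same σ p q u v) : Same σ q p u v := Or.symm h

lemma Same.swap_right (hr : Rev σ) {p q u v : Q} (h : Same σ p q u v) : Same σ p q v u := by
  rcases h with h | h
  · exact Or.inr (hr _ _ _ _ h)
  · exact Or.inl (hr _ _ _ _ h)

lemma Same.symm {p q u v : Q} (hr : Rev σ) (h : Same σ p q u v) : Same σ u v p q := by
  rcases h with h | h
  · exact Or.inl h.symm
  · exact Or.inr (hr _ _ _ _ h).symm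

lemma Same.trans (hr : Rev σ) {p q u v s t : Q} (h : Same σ p q u v) (h' : Same σ u v s t) :
    Same σ p q s t := by
  rcases h with h | h <;> rcases h' with h' | h'
  · exact Or.inl (h.trans h')
  · exact Or.inr ((hr _ _ _ _ h).trans h')
  · exact Or.inr (h.trans h')
  · exact Or.inl ((hr _ _ _ _ h).trans h')

/-- the label of two overlapping modules -/
lemma overlap_label (hr : Rev σ) {X Y : Set Q} (hX : IsModule σ X) (hY : IsModule σ Y)
    (h1 : ¬ X ⊆ Y) (h2 : ¬ Y ⊆ X) : ∃ a, (∀ u ∈ X \ Y, ∀ v ∈ Y, σ u v = a) ∧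
      ∀ u ∈ X, ∀ v ∈ Y \ X, σ u v = a := by
  obtain ⟨u0, hu0, hu0'⟩ := not_subset.mp h1
  obtain ⟨v0, hv0, hv0'⟩ := not_subset.mp h2
  have h3 : ∀ u ∈ X, ∀ v ∈ Y \ X, σ u v = σ u0 v0 := by
    intro u hu v hv
    rw [hr _ _ _ _ (hX v hv.2 u hu u0 hu0)]
    exact hY u0 hu0' v hv.1 v0 hv0
  refine ⟨σ u0 v0, fun u hu v hv => ?_, h3⟩
  rw [hY u hu.2 v hv v0 hv0]
  exact h3 u hu.1 v0 ⟨hv0, hv0'⟩

/-- nontrivial modules -/
def Nontriv (Z : Set Q) : Prop := (∃ u ∈ Z, ∃ v ∈ Z, u ≠ v) ∧ Z ≠ univ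

/-- every nontrivial module is overlapped -/
def Over (σ : Q → Q → A) : Prop := ∀ Z, IsModule σ Z → Nontriv Z →
  ∃ X, IsModule σ X ∧ (Z ∩ X).Nonempty ∧ ¬ Z ⊆ X ∧ ¬ X ⊆ Z

lemma sUnion_chain_module {c : Set (Set Q)} (hc : IsChain (· ⊆ ·) c)
    (h : ∀ X ∈ c, IsModule σ X) : IsModule σ (⋃₀ c) := by
  apply IsModule.sUnion h
  intro X hX Y hY
  rcases hc.total hX hY with h | h
  · exact ⟨Y, hY, h, subset_rfl⟩
  · exact ⟨X, hX, subset_rfl, h⟩

/-- (2) -/
lemma core2 (hr : Rev σ) (hov : Over σ) {Y0 : Set Q} (hY0 : IsModule σ Y0) (hn : Nontriv Y0) :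
    ∃ p q, (∀ y ∈ Y0, ∀ z, z ∉ Y0 → Same σ y z p q) := by
  obtain ⟨X1, hX1, hne, hX1a, hX1b⟩ := hov Y0 hY0 hn
  obtain ⟨p, hp, hp'⟩ := not_subset.mp hX1a
  obtain ⟨q, hq, hq'⟩ := not_subset.mp hX1b
  obtain ⟨t, htY, htX⟩ := hne
  obtain ⟨a, ha1, ha2⟩ := overlap_label hr hY0 hX1 hX1a hX1b
  have hpq : σ p q = a := ha1 p ⟨hp, hp'⟩ q hq
  refine ⟨p, q, ?_⟩
  let G : Set (Set Q) := {Z | IsModule σ Z ∧ Y0 ⊆ Z ∧ ∀ y ∈ Y0, ∀ z ∈ Z, z ∉ Y0 → Same σ y z p q}
  have hG0 : Y0 ∪ X1 ∈ G := by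
    refine ⟨hY0.union hr hX1 ⟨t, htY, htX⟩, subset_union_left, ?_⟩
    intro y hy z hz hzY
    rcases hz with hz | hz
    · exact absurd hz hzY
    · exact Or.inl ((ha2 y hy z ⟨hz, hzY⟩).trans hpq.symm)
  obtain ⟨Z, hZ0, hZmax⟩ := zorn_subset_nonempty G (by
    intro c hcG hchain hcne
    refine ⟨⋃₀ c, ⟨sUnion_chain_module hchain fun X hX => (hcG hX).1, ?_, ?_⟩,
      fun s hs => subset_sUnion_of_mem hs⟩
    · obtain ⟨X, hX⟩ := hcne
      exact (hcG hX).2.1.trans (subset_sUnion_of_mem hX)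
    · rintro y hy z ⟨X, hX, hz⟩ hzY
      exact (hcG hX).2.2 y hy z hz hzY) _ hG0
  have hZG := hZmax.prop
  by_cases hZu : Z = univ
  · intro y hy z hz
    exact hZG.2.2 y hy z (by rw [hZu]; exact mem_univ z) hz
  · exfalso
    have hZn : Nontriv Z := by
      obtain ⟨u, hu, v, hv, huv⟩ := hn.1
      exact ⟨⟨u, hZG.2.1 hu, v, hZG.2.1 hv, huv⟩, hZu⟩
    obtain ⟨X, hX, hXne, hXa, hXb⟩ := hov Z hZG.1 hZn
    obtain ⟨b, hb1, hb2⟩ := overlap_label hr hZG.1 hX hXa hXb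
    obtain ⟨x0, hx0, hx0'⟩ := not_subset.mp hXb
    by_cases hcls : Same σ p x0 p q
    · -- then the union is in `G`
      have hU : Z ∪ X ∈ G := by
        refine ⟨hZG.1.union hr hX hXne, hZG.2.1.trans subset_union_left, ?_⟩
        intro y hy z hz hzY
        by_cases hzZ : z ∈ Z
        · exact hZG.2.2 y hy z hzZ hzY
        · have hzX : z ∈ X := hz.resolve_left hzZ
          have h1 : σ y z = σ p x0 := by
            rw [hb2 y (hZG.2.1 hy) z ⟨hzX, hzZ⟩, hb2 p (hZ0 (Or.inl hp)) x0 ⟨hx0, hx0'⟩]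
          exact Same.trans hr (Or.inl h1) hcls
      exact hXb (subset_union_right.trans (hZmax.le_of_ge hU subset_union_left))
    · -- pairs between the two sides are not in the class
      have hpx : σ p x0 = b := hb2 p (hZ0 (Or.inl hp)) x0 ⟨hx0, hx0'⟩
      have hside : ∀ u ∈ Z, ∀ v ∈ Z, Same σ u v p q → (u ∈ X ↔ v ∈ X) := by
        have key : ∀ u ∈ Z, ∀ v ∈ Z, Same σ u v p q → u ∈ X → v ∈ X := by
          intro u hu v hv hs huX
          by_contra hvX
          have h1 : σ v u = b := hb1 v ⟨hv, hvX⟩ u huX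
          apply hcls
          have h2 : Same σ p x0 u v := Same.swap_right hr (Or.inl (hpx.trans h1.symm))
          exact Same.trans hr h2 hs
        intro u hu v hv hs
        exact ⟨key u hu v hv hs, key v hv u hu hs.swap_left⟩
      have hpZ : p ∈ Z := hZ0 (Or.inl hp)
      have htZ : t ∈ Z := hZ0 (Or.inl htY)
      have hqZ : q ∈ Z := hZ0 (Or.inr hq)
      have hpq' : p ∈ X ↔ q ∈ X := hside p hpZ q hqZ (Same.refl _ _)
      -- all elements of `Y0` are on the side of `q`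
      have hY0s : ∀ y ∈ Y0, (y ∈ X ↔ q ∈ X) := by
        intro y hy
        apply hside y (hZG.2.1 hy) q hqZ
        exact Or.inl ((ha2 y hy q ⟨hq, hq'⟩).trans hpq.symm)
      have hall : ∀ z ∈ Z, (z ∈ X ↔ q ∈ X) := by
        intro z hz
        by_cases hzY : z ∈ Y0
        · exact hY0s z hzY
        · have h1 := hside p hpZ z hz (hZG.2.2 p hp z hz hzY)
          rw [← h1]
          exact hpq'
      obtain ⟨w, hwZ, hwX⟩ := hXne
      obtain ⟨w', hw', hw'X⟩ := not_subset.mp hXa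
      exact hw'X ((hall w' hw').mpr ((hall w hwZ).mp hwX))

/-- (2') -/
lemma core2' (hr : Rev σ) (hov : Over σ) {Y0 : Set Q} (hY0 : IsModule σ Y0) (hn : Nontriv Y0)
    {y z y' z' : Q} (hy : y ∈ Y0) (hz : z ∉ Y0) (hy' : y' ∈ Y0) (hz' : z' ∉ Y0) :
    Same σ y z y' z' := by
  obtain ⟨p, q, h⟩ := core2 hr hov hY0 hn
  exact (h y hy z hz).trans hr ((h y' hy' z' hz').symm hr)

/-- (3) -/
lemma core3 (hr : Rev σ) (hov : Over σ) {Y0 : Set Q} (hY0 : IsModule σ Y0)
    {u v z0 : Q} (hu : u ∈ Y0) (hv : v ∈ Y0) (huv : u ≠ v) (hz0 : z0 ∉ Y0) :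
    Same σ u v u z0 := by
  have hZ := isModule_mdl (τ := σ) u v
  have hZY := mdl_subset hY0 hu hv
  have hz0Z : z0 ∉ mdl σ u v := fun h => hz0 (hZY h)
  have hZn : Nontriv (mdl σ u v) :=
    ⟨⟨u, left_mem_mdl u v, v, right_mem_mdl u v, huv⟩, fun h => hz0Z (h ▸ mem_univ z0)⟩
  obtain ⟨X, hX, hne, hXa, hXb⟩ := hov _ hZ hZn
  obtain ⟨b, hb1, hb2⟩ := overlap_label hr hZ hX hXa hXb
  obtain ⟨x, hx, hx'⟩ := not_subset.mp hXb
  have h1 : ¬ (u ∈ X ∧ v ∈ X) := by
    rintro ⟨h, h'⟩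
    exact hXa ((mdl_subset hX h h'))
  have h2 : ¬ (u ∉ X ∧ v ∉ X) := by
    rintro ⟨h, h'⟩
    have h3 := mdl_subset (hZ.diff hr hX hXb) (x := u) (y := v) ⟨left_mem_mdl u v, h⟩
      ⟨right_mem_mdl u v, h'⟩
    obtain ⟨w, hwZ, hwX⟩ := hne
    exact (h3 hwZ).2 hwX
  have h3 : Same σ u v u x := by
    have h4 : σ u x = b := hb2 u (left_mem_mdl u v) x ⟨hx, hx'⟩
    by_cases huX : u ∈ X
    · have hvX : v ∉ X := fun h => h1 ⟨huX, h⟩
      exact Or.inr ((hb1 v ⟨right_mem_mdl u v, hvX⟩ u huX).trans h4.symm)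
    · have hvX : v ∈ X := by
        by_contra h
        exact h2 ⟨huX, h⟩
      exact Or.inl ((hb1 u ⟨left_mem_mdl u v, huX⟩ v hvX).trans h4.symm)
  exact h3.trans hr (core2' hr hov hZ hZn (left_mem_mdl u v) hx' (left_mem_mdl u v) hz0Z)

/-- (4) all pairs have the same labels -/
lemma core4 (hr : Rev σ) (hov : Over σ) {Y0 : Set Q} (hY0 : IsModule σ Y0) (hn : Nontriv Y0)
    {y0 z0 : Q} (hy0 : y0 ∈ Y0) (hz0 : z0 ∉ Y0) {u v : Q} (huv : u ≠ v) :
    Same σ u v y0 z0 := by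
  -- the case where both are in `Y0`
  have hin : ∀ u v, u ≠ v → u ∈ Y0 → Same σ u v y0 z0 := by
    intro u v huv hu
    by_cases hv : v ∈ Y0
    · exact (core3 hr hov hY0 hu hv huv hz0).trans hr (core2' hr hov hY0 hn hu hz0 hy0 hz0)
    · exact core2' hr hov hY0 hn hu hv hy0 hz0
  by_cases hu : u ∈ Y0
  · exact hin u v huv hu
  by_cases hv : v ∈ Y0
  · exact (hin v u huv.symm hv).swap_left
  -- both outside
  obtain ⟨Z, hZ0, hZmax⟩ := zorn_subset_nonempty {Z | IsModule σ Z ∧ Y0 ⊆ Z ∧ v ∉ Z} (by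
    intro c hcG hchain hcne
    refine ⟨⋃₀ c, ⟨sUnion_chain_module hchain fun X hX => (hcG hX).1, ?_, ?_⟩,
      fun s hs => subset_sUnion_of_mem hs⟩
    · obtain ⟨X, hX⟩ := hcne
      exact (hcG hX).2.1.trans (subset_sUnion_of_mem hX)
    · rintro ⟨X, hX, hv⟩
      exact (hcG hX).2.2 hv) Y0 ⟨hY0, subset_rfl, hv⟩
  obtain ⟨hZ, hYZ, hvZ⟩ := hZmax.prop
  have hZn : Nontriv Z := by
    obtain ⟨a, ha, b, hb, hab⟩ := hn.1
    exact ⟨⟨a, hYZ ha, b, hYZ hb, hab⟩, fun h => hvZ (h ▸ mem_univ v)⟩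
  have hyv : Same σ y0 v y0 z0 := core2' hr hov hY0 hn hy0 hv hy0 hz0
  by_cases huZ : u ∈ Z
  · exact (core2' hr hov hZ hZn huZ hvZ (hYZ hy0) hvZ).trans hr hyv
  obtain ⟨X, hX, hne, hXa, hXb⟩ := hov Z hZ hZn
  have hvX : v ∈ X := by
    by_contra h
    have h1 : Z ∪ X ∈ {Z | IsModule σ Z ∧ Y0 ⊆ Z ∧ v ∉ Z} := by
      refine ⟨hZ.union hr hX hne, hYZ.trans subset_union_left, ?_⟩
      rintro (h' | h')
      · exact hvZ h'
      · exact h h'
    exact hXb (subset_union_right.trans (hZmax.le_of_ge h1 subset_union_left))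
  have hlast : Same σ u y0 y0 z0 :=
    ((core2' hr hov hZ hZn (hYZ hy0) huZ (hYZ hy0) hvZ).trans hr hyv).swap_left
  by_cases huX : u ∈ X
  · have hW := hX.diff hr hZ hXa
    have h1 := core3 hr hov hW (u := u) (v := v) (z0 := y0) ⟨huX, huZ⟩ ⟨hvX, hvZ⟩ huv
      (fun h => h.2 (hYZ hy0))
    exact h1.trans hr hlast
  · have h1 : σ u v = σ u y0 := (hZ.union hr hX hne) u (by
      rintro (h | h)
      · exact huZ h
      · exact huX h) v (Or.inr hvX) y0 (Or.inl (hYZ hy0))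
    exact Same.trans hr (Or.inl h1) hlast

/-- (5) -/
lemma core5 (hr : Rev σ) (hov : Over σ) {Y0 : Set Q} (hY0 : IsModule σ Y0) (hn : Nontriv Y0)
    {a : A} (hasym : ∀ u v, σ u v = a → σ v u ≠ a) {u v w : Q} (h1 : σ u v = a) (h2 : σ v w = a)
    (h3 : σ w u = a) : False := by
  have key : ∀ u v w, σ u v = a → σ v w = a → σ w u = a → mdl σ v w ⊆ mdl σ u v := by
    intro u v w h1 h2 h3
    refine mdl_subset (isModule_mdl u v) (right_mem_mdl u v) ?_
    by_contra h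
    have h4 := isModule_mdl (τ := σ) u v w h u (left_mem_mdl u v) v (right_mem_mdl u v)
    exact hasym v w h2 (h4.symm.trans h3)
  have huv : u ≠ v := fun h => hasym u v h1 (by rw [h] at h1 ⊢; exact h1)
  have hvw : v ≠ w := fun h => hasym v w h2 (by rw [h] at h2 ⊢; exact h2)
  have hwu : w ≠ u := fun h => hasym w u h3 (by rw [h] at h3 ⊢; exact h3)
  have e1 := key u v w h1 h2 h3
  have e2 := key v w u h2 h3 h1
  have e3 := key w u v h3 h1 h2
  -- a module which contains two of the three elements contains `mdl σ u v`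
  have htwo : ∀ X, IsModule σ X → ((u ∈ X ∧ v ∈ X) ∨ (v ∈ X ∧ w ∈ X) ∨ (w ∈ X ∧ u ∈ X)) →
      mdl σ u v ⊆ X := by
    rintro X hX (⟨h, h'⟩ | ⟨h, h'⟩ | ⟨h, h'⟩)
    · exact mdl_subset hX h h'
    · exact (e3.trans e2).trans (mdl_subset hX h h')
    · exact e3.trans (mdl_subset hX h h')
  have hwZ : w ∈ mdl σ u v := e1 (right_mem_mdl v w)
  have hZ := isModule_mdl (τ := σ) u v
  by_cases hZu : mdl σ u v = univ
  · obtain ⟨Z, hZ0, hZmax⟩ := zorn_subset_nonempty {Z | IsModule σ Z ∧ Z ≠ univ} (by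
      intro c hcG hchain hcne
      refine ⟨⋃₀ c, ⟨sUnion_chain_module hchain fun X hX => (hcG hX).1, ?_⟩,
        fun s hs => subset_sUnion_of_mem hs⟩
      intro hcu
      obtain ⟨X, hX, hXu⟩ : u ∈ ⋃₀ c := hcu ▸ mem_univ u
      obtain ⟨Y, hY, hYv⟩ : v ∈ ⋃₀ c := hcu ▸ mem_univ v
      rcases hchain.total hX hY with h | h
      · apply (hcG hY).2
        rw [← univ_subset_iff, ← hZu]
        exact htwo Y (hcG hY).1 (Or.inl ⟨h hXu, hYv⟩)
      · apply (hcG hX).2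
        rw [← univ_subset_iff, ← hZu]
        exact htwo X (hcG hX).1 (Or.inl ⟨hXu, h hYv⟩)) Y0 ⟨hY0, hn.2⟩
    obtain ⟨hZm, hZne⟩ := hZmax.prop
    have hZn : Nontriv Z := by
      obtain ⟨a, ha, b, hb, hab⟩ := hn.1
      exact ⟨⟨a, hZ0 ha, b, hZ0 hb, hab⟩, hZne⟩
    obtain ⟨X, hX, hne, hXa, hXb⟩ := hov Z hZm hZn
    have hXu : X ≠ univ := fun h => hXa (h ▸ subset_univ Z)
    have hU : Z ∪ X = univ := by
      by_contra h
      have h4 : Z ∪ X ∈ {Z | IsModule σ Z ∧ Z ≠ univ} := ⟨hZm.union hr hX hne, h⟩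
      exact hXb (subset_union_right.trans (hZmax.le_of_ge h4 subset_union_left))
    have hnotX : ∀ X, IsModule σ X → X ≠ univ →
        ¬ ((u ∈ X ∧ v ∈ X) ∨ (v ∈ X ∧ w ∈ X) ∨ (w ∈ X ∧ u ∈ X)) := by
      intro X hX hXu h
      apply hXu
      rw [← univ_subset_iff, ← hZu]
      exact htwo X hX h
    have hX' := hnotX X hX hXu
    have hZ' := hnotX Z hZm hZne
    have hu : u ∈ Z ∪ X := hU ▸ mem_univ u
    have hv : v ∈ Z ∪ X := hU ▸ mem_univ v
    have hw : w ∈ Z ∪ X := hU ▸ mem_univ w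
    rcases hu with hu | hu <;> rcases hv with hv | hv <;> rcases hw with hw | hw <;> tauto
  · have hZn : Nontriv (mdl σ u v) :=
      ⟨⟨u, left_mem_mdl u v, v, right_mem_mdl u v, huv⟩, hZu⟩
    obtain ⟨X, hX, hne, hXa, hXb⟩ := hov _ hZ hZn
    have hD := hZ.diff hr hX hXb
    have h4 : ¬ ((u ∈ X ∧ v ∈ X) ∨ (v ∈ X ∧ w ∈ X) ∨ (w ∈ X ∧ u ∈ X)) :=
      fun h => hXa (htwo X hX h)
    have h5 : ¬ ((u ∈ mdl σ u v \ X ∧ v ∈ mdl σ u v \ X) ∨
        (v ∈ mdl σ u v \ X ∧ w ∈ mdl σ u v \ X) ∨ (w ∈ mdl σ u v \ X ∧ u ∈ mdl σ u v \ X)) := by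
      intro h
      obtain ⟨t, htZ, htX⟩ := hne
      exact (htwo _ hD h htZ).2 htX
    have hu := left_mem_mdl (τ := σ) u v
    have hv := right_mem_mdl (τ := σ) u v
    simp only [mem_sdiff, hu, hv, hwZ, true_and] at h5
    tauto

/-- the core lemma -/
lemma core (hr : Rev σ) (hov : Over σ) {Y0 : Set Q} (hY0 : IsModule σ Y0) (hn : Nontriv Y0) :
    (∃ a, ∀ u v, u ≠ v → σ u v = a) ∨
    (∃ a, (∀ u v, u ≠ v → (σ u v = a ∧ σ v u ≠ a) ∨ (σ v u = a ∧ σ u v ≠ a)) ∧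
      ∀ u v w, u ≠ v → v ≠ w → σ u v = a → σ v w = a → u ≠ w ∧ σ u w = a) := by
  obtain ⟨y0, hy0, -⟩ := hn.1
  obtain ⟨z0, hz0⟩ : ∃ z0, z0 ∉ Y0 := by
    by_contra h
    push Not at h
    exact hn.2 (eq_univ_of_forall h)
  have h4 : ∀ u v, u ≠ v → Same σ u v y0 z0 := fun u v huv =>
    core4 hr hov hY0 hn hy0 hz0 huv
  by_cases hsym : σ z0 y0 = σ y0 z0
  · refine Or.inl ⟨σ y0 z0, fun u v huv => ?_⟩
    rcases h4 u v huv with h | h
    · exact h
    · exact (hr _ _ _ _ h).trans hsym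
  · have hrev : ∀ u v, σ u v = σ y0 z0 → σ v u ≠ σ y0 z0 := by
      intro u v h h'
      exact hsym ((hr _ _ _ _ h).symm.trans h')
    refine Or.inr ⟨σ y0 z0, fun u v huv => ?_, fun u v w huv hvw h1 h2 => ?_⟩
    · rcases h4 u v huv with h | h
      · exact Or.inl ⟨h, hrev u v h⟩
      · exact Or.inr ⟨h, hrev v u h⟩
    · have huw : u ≠ w := by
        rintro rfl
        exact hrev u v h1 h2
      refine ⟨huw, ?_⟩
      rcases h4 u w huw with h | h
      · exact h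
      · exact (core5 hr hov hY0 hn hrev h1 h2 h).elim

end Core

/-! ### the trichotomy -/

section Tri

/-- different points of a two-point node are in different children of it; representatives -/
lemma tri_exists_rep {P R : Set M} (hR : IsTransversal τ P R) (hP : IsStrong τ P) :
    ∃ rep : M → M, (∀ z ∈ P, rep z ∈ R ∧ node τ z (rep z) ⊂ P) ∧
      ∀ z ∈ P, ∀ r ∈ R, node τ z r ⊂ P → r = rep z := by
  classical
  have h : ∀ z, ∃ r, z ∈ P → (r ∈ R ∧ node τ z r ≠ P ∧ ∀ r' ∈ R, node τ z r' ≠ P → r' = r) := by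
    intro z
    by_cases hz : z ∈ P
    · obtain ⟨r, hr, h1, h2⟩ := hR.2 z hz
      exact ⟨r, fun _ => ⟨hr, h1, h2⟩⟩
    · exact ⟨z, fun h => absurd h hz⟩
  choose rep hrep using h
  refine ⟨rep, fun z hz => ?_, fun z hz r hr hzr => ?_⟩
  · obtain ⟨h1, h2, -⟩ := hrep z hz
    exact ⟨h1, (node_subset hP hz (hR.1 h1)).ssubset_of_ne h2⟩
  · exact (hrep z hz).2.2 r hr hzr.ne

/-- **Gallai trichotomy.** -/
theorem trichotomy (hr : Rev τ) {x y : M} (hxy : x ≠ y) :
    IsComplete τ (node τ x y) ∨ (∃ a, IsLinear τ (node τ x y) a) ∨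
      ∀ R, IsTransversal τ (node τ x y) R → IsPrim τ R := by
  obtain ⟨P, hPeq⟩ : ∃ P, P = node τ x y := ⟨_, rfl⟩
  rw [← hPeq]
  have hP : IsStrong τ P := hPeq ▸ isStrong_node x y
  have hxP : x ∈ P := hPeq ▸ left_mem_node x y
  have hyP : y ∈ P := hPeq ▸ right_mem_node x y
  by_cases hall : ∀ R, IsTransversal τ P R → IsPrim τ R
  · exact Or.inr (Or.inr hall)
  push Not at hall
  obtain ⟨R, hR, hprim⟩ := hall
  obtain ⟨rep, hrep1, hrep2⟩ := tri_exists_rep hR hP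
  have hself : ∀ u ∈ P, node τ u u ⊂ P := by
    intro u hu
    refine (node_subset hP hu hu).ssubset_of_ne fun h => ?_
    rw [node_self] at h
    have h1 : x = u := by rw [← mem_singleton_iff, h]; exact hxP
    have h2 : y = u := by rw [← mem_singleton_iff, h]; exact hyP
    exact hxy (h1.trans h2.symm)
  have hrepR : ∀ r ∈ R, rep r = r := fun r hr =>
    (hrep2 r (hR.1 hr) r hr (hself r (hR.1 hr))).symm
  -- same representative = same child
  have hsame : ∀ u ∈ P, ∀ v ∈ P, node τ u v ⊂ P → rep u = rep v := by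
    intro u hu v hv h
    apply hrep2 v hv _ (hrep1 u hu).1
    exact node_trans hP (by rw [node_comm]; exact h) (hrep1 u hu).2
  have hchild : ∀ u ∈ P, ∀ v ∈ P, rep u = rep v → node τ u v ⊂ P := by
    intro u hu v hv h
    refine node_trans hP (hrep1 u hu).2 ?_
    rw [h, node_comm]
    exact (hrep1 v hv).2
  -- labels between different children
  have hlab : ∀ u ∈ P, ∀ v ∈ P, rep u ≠ rep v → τ u v = τ (rep u) (rep v) := by
    intro u hu v hv huv
    have h1 : τ u v = τ u (rep v) := by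
      have hm := (isStrong_child hP v).1
      refine hm u ?_ v (hself v hv) (rep v) (hrep1 v hv).2
      intro h
      exact huv (hsame v hv u hu h).symm
    have h2 : τ (rep v) u = τ (rep v) (rep u) := by
      have hm := (isStrong_child hP u).1
      refine hm (rep v) ?_ u (hself u hu) (rep u) (hrep1 u hu).2
      intro h
      have := hsame u hu (rep v) (hR.1 (hrep1 v hv).1) h
      rw [hrepR _ (hrep1 v hv).1] at this
      exact huv this
    rw [h1]
    exact hr _ _ _ _ h2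
  -- the labelling of the representatives
  let σ : R → R → A := fun r s => τ r.1 s.1
  have hrσ : Rev σ := fun a b c d h => hr _ _ _ _ h
  -- unions of children
  let til : Set R → Set M := fun Z => {w | ∃ h : w ∈ P, (⟨rep w, (hrep1 w h).1⟩ : R) ∈ Z}
  have htil : ∀ Z : Set R, IsModule σ Z → IsModule τ (til Z) := by
    intro Z hZ z hz w hw w' hw'
    obtain ⟨hwP, hwZ⟩ := hw
    obtain ⟨hwP', hwZ'⟩ := hw'
    by_cases hzP : z ∈ P
    · have h1 : (⟨rep z, (hrep1 z hzP).1⟩ : R) ∉ Z := fun h => hz ⟨hzP, h⟩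
      have h2 := hZ _ h1 _ hwZ _ hwZ'
      rw [hlab z hzP w hwP (fun h => h1 (by simp only [h]; exact hwZ)),
        hlab z hzP w' hwP' (fun h => h1 (by simp only [h]; exact hwZ'))]
      exact h2
    · exact hP.1 z hzP w hwP w' hwP'
  have hov : Over σ := by
    intro Z hZ hZn
    obtain ⟨⟨r, hrZ, r', hrZ', hrr⟩, hZu⟩ := hZn
    obtain ⟨s, hs⟩ : ∃ s, s ∉ Z := by
      by_contra h
      push Not at h
      exact hZu (eq_univ_of_forall h)
    have hmem : ∀ t ∈ Z, t.1 ∈ til Z := by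
      intro t ht
      refine ⟨hR.1 t.2, ?_⟩
      have : (⟨rep t.1, (hrep1 t.1 (hR.1 t.2)).1⟩ : R) = t := Subtype.ext (hrepR t.1 t.2)
      rw [this]; exact ht
    have hnode : node τ r.1 r'.1 = P := by
      by_contra h
      have h1 := (node_subset hP (hR.1 r.2) (hR.1 r'.2)).ssubset_of_ne h
      have h2 := hsame r.1 (hR.1 r.2) r'.1 (hR.1 r'.2) h1
      rw [hrepR r.1 r.2, hrepR r'.1 r'.2] at h2
      exact hrr (Subtype.ext h2)
    have hnotStrong : ¬ IsStrong τ (til Z) := by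
      intro hst
      have h1 := node_subset hst (hmem r hrZ) (hmem r' hrZ')
      rw [hnode] at h1
      obtain ⟨hsP, h2⟩ := h1 (hR.1 s.2)
      apply hs
      have : (⟨rep s.1, (hrep1 s.1 hsP).1⟩ : R) = s := Subtype.ext (hrepR s.1 s.2)
      rw [this] at h2
      exact h2
    have hex : ∃ Y, IsModule τ Y ∧ (til Z ∩ Y).Nonempty ∧ ¬ til Z ⊆ Y ∧ ¬ Y ⊆ til Z := by
      by_contra h
      push Not at h
      apply hnotStrong
      refine ⟨htil Z hZ, fun Y hY hne => ?_⟩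
      by_cases h1 : til Z ⊆ Y
      · exact Or.inl h1
      · exact Or.inr (h Y hY hne h1)
    obtain ⟨Y, hY, ⟨w, hwT, hwY⟩, hTY, hYT⟩ := hex
    have hYP : Y ⊆ P := by
      rcases hP.2 Y hY ⟨w, hwT.1, hwY⟩ with h | h
      · exact absurd (fun v hv => h hv.1) hTY
      · exact h
    -- children which meet `Y` are contained in `Y`
    have hchY : ∀ v ∈ Y, {t | node τ v t ⊂ P} ⊆ Y := by
      intro v hv
      rcases (isStrong_child hP v).2 Y hY ⟨v, hself v (hYP hv), hv⟩ with h | h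
      · exact h
      · exfalso
        apply hYT
        have h1 : rep v = rep w := hsame v (hYP hv) w (hYP hwY) (h hwY)
        intro t ht
        have h2 : rep v = rep t := hsame v (hYP hv) t (hYP ht) (h ht)
        refine ⟨hYP ht, ?_⟩
        obtain ⟨hwP, hwZ⟩ := hwT
        have h3 : (⟨rep t, (hrep1 t (hYP ht)).1⟩ : R) = ⟨rep w, (hrep1 w hwP).1⟩ :=
          Subtype.ext (h2.symm.trans h1)
        rw [h3]; exact hwZ
    have hrepY : ∀ v ∈ Y, rep v ∈ Y := fun v hv => hchY v hv (hrep1 v (hYP hv)).2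
    have hrepY' : ∀ v ∈ P, rep v ∈ Y → v ∈ Y := by
      intro v hv h
      apply hchY _ h
      show node τ (rep v) v ⊂ P
      rw [node_comm]
      exact (hrep1 v hv).2
    refine ⟨{t | t.1 ∈ Y}, ?_, ?_, ?_, ?_⟩
    · intro z hz u hu v hv
      exact hY z.1 hz u.1 hu v.1 hv
    · obtain ⟨hwP, hwZ⟩ := hwT
      exact ⟨⟨rep w, (hrep1 w hwP).1⟩, hwZ, hrepY w hwY⟩
    · intro h
      obtain ⟨v, ⟨hvP, hvZ⟩, hvY⟩ := not_subset.mp hTY
      exact hvY (hrepY' v hvP (h hvZ))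
    · intro h
      obtain ⟨v, hvY, hvT⟩ := not_subset.mp hYT
      apply hvT
      exact ⟨hYP hvY, h (show (⟨rep v, (hrep1 v (hYP hvY)).1⟩ : R) ∈ {t : R | t.1 ∈ Y} from
        hrepY v hvY)⟩
  -- a nontrivial module
  obtain ⟨Y0, hY0, hY0n⟩ : ∃ Y0 : Set R, IsModule σ Y0 ∧ Nontriv Y0 := by
    unfold IsPrim at hprim
    push Not at hprim
    obtain ⟨X, hXR, hX, hXs, hXne⟩ := hprim
    refine ⟨{t | t.1 ∈ X}, fun z hz u hu v hv => hX z.1 z.2 hz u.1 hu v.1 hv, ?_, ?_⟩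
    · obtain ⟨u, hu, v, hv, huv⟩ := hXs
      exact ⟨⟨u, hXR hu⟩, hu, ⟨v, hXR hv⟩, hv, fun h => huv (congrArg Subtype.val h)⟩
    · intro h
      apply hXne
      apply Subset.antisymm hXR
      intro t ht
      have : (⟨t, ht⟩ : R) ∈ {t : R | t.1 ∈ X} := h ▸ mem_univ _
      exact this
  -- pairs in different children
  have hdiff : ∀ u v, node τ u v = P → u ∈ P ∧ v ∈ P ∧ rep u ≠ rep v := by
    intro u v h
    have hu : u ∈ P := h ▸ left_mem_node u v
    have hv : v ∈ P := h ▸ right_mem_node u v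
    exact ⟨hu, hv, fun h' => (hchild u hu v hv h').ne h⟩
  rcases core hrσ hov hY0 hY0n with ⟨a, ha⟩ | ⟨a, ha, ha'⟩
  · left
    refine ⟨a, fun u v huv => ?_⟩
    obtain ⟨hu, hv, hne⟩ := hdiff u v huv
    rw [hlab u hu v hv hne]
    exact ha ⟨rep u, (hrep1 u hu).1⟩ ⟨rep v, (hrep1 v hv).1⟩
      (fun h => hne (congrArg Subtype.val h))
  · right; left
    refine ⟨a, fun u v huv => ?_, fun u v w huv hvw h1 h2 => ?_⟩
    · obtain ⟨hu, hv, hne⟩ := hdiff u v huv
      rw [hlab u hu v hv hne, hlab v hv u hu hne.symm]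
      exact ha ⟨rep u, (hrep1 u hu).1⟩ ⟨rep v, (hrep1 v hv).1⟩
        (fun h => hne (congrArg Subtype.val h))
    · obtain ⟨hu, hv, hne⟩ := hdiff u v huv
      obtain ⟨-, hw, hne'⟩ := hdiff v w hvw
      rw [hlab u hu v hv hne] at h1
      rw [hlab v hv w hw hne'] at h2
      obtain ⟨h3, h4⟩ := ha' ⟨rep u, (hrep1 u hu).1⟩ ⟨rep v, (hrep1 v hv).1⟩
        ⟨rep w, (hrep1 w hw).1⟩ (fun h => hne (congrArg Subtype.val h))
        (fun h => hne' (congrArg Subtype.val h)) h1 h2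
      have h5 : rep u ≠ rep w := fun h => h3 (Subtype.ext h)
      refine ⟨?_, ?_⟩
      · by_contra h
        exact h5 (hsame u hu w hw ((node_subset hP hu hw).ssubset_of_ne h))
      · rw [hlab u hu w hw h5]
        exact h4

end Tri

end Pool.Agent.Helper97.MD
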