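import Pool.Agent.Helper78.VCM.MD
import Pool.Agent.VB.C

/-!
# Modules: definability
-/

set_option autoImplicit false
set_option linter.unusedSectionVars false
set_option linter.unusedVariables false

namespace Pool.Agent.Helper97.MD

open Set

variable {M A : Type} {τ : M → M → A}

/-- stages of the generation of `mdl` -/
def mst (τ : M → M → A) (x y : M) : ℕ → Set M
  | 0 => {x, y}
  | n + 1 => mst τ x y n ∪ {z | ∃ u ∈ mst τ x y n, ∃ v ∈ mst τ x y n, τ z u ≠ τ z v}

lemma mst_mono (x y : M) {n m : ℕ} (h : n ≤ m) : mst τ x y n ⊆ mst τ x y m := by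
  induction h with
  | refl => exact subset_rfl
  | step _ ih => exact ih.trans subset_union_left

lemma mem_mdl_iff (x y z : M) : z ∈ mdl τ x y ↔ ∃ n, z ∈ mst τ x y n := by
  constructor
  · intro h
    have h1 : IsModule τ (⋃ n, mst τ x y n) := by
      intro z hz u hu v hv
      obtain ⟨n, hn⟩ := mem_iUnion.mp hu
      obtain ⟨m, hm⟩ := mem_iUnion.mp hv
      by_contra hne
      apply hz
      refine mem_iUnion.mpr ⟨max n m + 1, Or.inr ⟨u, mst_mono x y (le_max_left _ _) hn, v,
        mst_mono x y (le_max_right _ _) hm, hne⟩⟩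
    exact mem_iUnion.mp (h _ h1 (mem_iUnion.mpr ⟨0, Or.inl rfl⟩) (mem_iUnion.mpr ⟨0, Or.inr rfl⟩))
  · rintro ⟨n, hn⟩
    induction n generalizing z with
    | zero =>
      rcases hn with rfl | hn
      · exact left_mem_mdl _ _
      · rw [mem_singleton_iff.mp hn]; exact right_mem_mdl _ _
    | succ n ih =>
      rcases hn with hn | ⟨u, hu, v, hv, hne⟩
      · exact ih z hn
      · by_contra h
        exact hne (isModule_mdl x y z h u (ih u hu) v (ih v hv))

/-- stages of the generation of `node` -/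
def nst (τ : M → M → A) (x y : M) : ℕ → Set M
  | 0 => {x, y}
  | n + 1 => nst τ x y n ∪ ({z | ∃ u ∈ nst τ x y n, ∃ v ∈ nst τ x y n, τ z u ≠ τ z v} ∪
      {w | ∃ u ∈ nst τ x y n, ∃ t ∈ nst τ x y n, t ∉ mdl τ u w})

lemma nst_mono (x y : M) {n m : ℕ} (h : n ≤ m) : nst τ x y n ⊆ nst τ x y m := by
  induction h with
  | refl => exact subset_rfl
  | step _ ih => exact ih.trans subset_union_left

lemma mem_node_iff (x y z : M) : z ∈ node τ x y ↔ ∃ n, z ∈ nst τ x y n := by
  constructor
  · intro h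
    have h1 : IsStrong τ (⋃ n, nst τ x y n) := by
      refine ⟨?_, ?_⟩
      · intro z hz u hu v hv
        obtain ⟨n, hn⟩ := mem_iUnion.mp hu
        obtain ⟨m, hm⟩ := mem_iUnion.mp hv
        by_contra hne
        apply hz
        refine mem_iUnion.mpr ⟨max n m + 1, Or.inr (Or.inl ⟨u, nst_mono x y (le_max_left _ _) hn,
          v, nst_mono x y (le_max_right _ _) hm, hne⟩)⟩
      · rintro Y hY ⟨u, hu, huY⟩
        by_contra hcon
        push Not at hcon
        obtain ⟨h2, h3⟩ := hcon
        obtain ⟨t, ht, htY⟩ := not_subset.mp h2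
        obtain ⟨w, hwY, hw⟩ := not_subset.mp h3
        obtain ⟨n, hn⟩ := mem_iUnion.mp hu
        obtain ⟨m, hm⟩ := mem_iUnion.mp ht
        apply hw
        refine mem_iUnion.mpr ⟨max n m + 1, Or.inr (Or.inr ⟨u, nst_mono x y (le_max_left _ _) hn,
          t, nst_mono x y (le_max_right _ _) hm, fun h => htY (mdl_subset hY huY hwY h)⟩)⟩
    exact mem_iUnion.mp (h _ h1 (mem_iUnion.mpr ⟨0, Or.inl rfl⟩) (mem_iUnion.mpr ⟨0, Or.inr rfl⟩))
  · rintro ⟨n, hn⟩
    induction n generalizing z with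
    | zero =>
      rcases hn with rfl | hn
      · exact left_mem_node _ _
      · rw [mem_singleton_iff.mp hn]; exact right_mem_node _ _
    | succ n ih =>
      rcases hn with hn | ⟨u, hu, v, hv, hne⟩ | ⟨u, hu, t, ht, htm⟩
      · exact ih z hn
      · by_contra h
        exact hne ((isStrong_node x y).1 z h u (ih u hu) v (ih v hv))
      · rcases (isStrong_node x y).2 (mdl τ u z) (isModule_mdl u z)
          ⟨u, ih u hu, left_mem_mdl u z⟩ with h | h
        · exact absurd (h (ih t ht)) htm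
        · exact h (right_mem_mdl u z)

end Pool.Agent.Helper97.MD

namespace Pool.Agent.Helper97.LO

open Set Pool.Agent.Helper5.DU Pool.Agent.Helper6.Str Pool.Agent.Helper79.VC
  Pool.Agent.Helper97.VC Pool.Agent.Helper97.MD

variable {L : FirstOrder.Language.{0, 0}} {M N : Type}

theorem rev_bt (S : L.Structure M) : Rev (bt S) := by
  intro x y x' y' h
  have h1 := congrArg Prod.fst h
  have h2 := congrArg Prod.snd h
  exact Prod.ext h2 h1

theorem bt_eq_of_atEq {S : L.Structure M} {S' : L.Structure N} {p : Set (M × N)}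
    (h : AtEq S S' p) {x y : M} {x' y' : N} (hx : (x, x') ∈ p) (hy : (y, y') ∈ p) :
    bt S x y = bt S' x' y' := by
  have key : ∀ {x y : M} {x' y' : N}, (x, x') ∈ p → (y, y') ∈ p → ∀ R : L.Relations 2,
      S.RelMap R ![x, y] ↔ S'.RelMap R ![x', y'] := by
    intro x y x' y' hx hy R
    have h1 := h.2 2 R ![(x, x'), (y, y')] (by
      intro i
      fin_cases i
      · exact hx
      · exact hy)
    have e1 : (fun i => ((![(x, x'), (y, y')] : Fin 2 → M × N) i).1) = ![x, y] := by
      funext i; fin_cases i <;> rfl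
    have e2 : (fun i => ((![(x, x'), (y, y')] : Fin 2 → M × N) i).2) = ![x', y'] := by
      funext i; fin_cases i <;> rfl
    rw [e1, e2] at h1
    exact h1
  refine Prod.ext ?_ ?_
  · ext R
    exact key hx hy R
  · ext R
    exact key hy hx R

lemma mst_congr' (n : ℕ) : ∀ {M N : Type} {S : L.Structure M} {S' : L.Structure N}
    {p : Set (M × N)}, BFR S S' univ univ ((2 * n : ℕ) : Ordinal.{0}) p → ∀ {x y z : M}
    {x' y' z' : N}, (x, x') ∈ p → (y, y') ∈ p → (z, z') ∈ p → z ∈ mst (bt S) x y n →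
    z' ∈ mst (bt S') x' y' n := by
  induction n with
  | zero =>
    intro M N S S' p h x y z x' y' z' hx hy hz hzm
    rcases hzm with hzm | hzm
    · left
      exact (h.atEq.1 _ hz _ hx).mp hzm
    · right
      exact (h.atEq.1 _ hz _ hy).mp hzm
  | succ n ih =>
    intro M N S S' p h x y z x' y' z' hx hy hz hzm
    rcases hzm with hzm | ⟨u, hu, v, hv, hne⟩
    · left
      exact ih (h.mono (by exact_mod_cast (by omega : 2 * n ≤ 2 * (n + 1)))) hx hy hz hzm
    · right
      obtain ⟨u', -, h1⟩ := h.forth (β := ((2 * n + 1 : ℕ) : Ordinal.{0}))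
        (by exact_mod_cast (by omega : 2 * n + 1 < 2 * (n + 1))) (mem_univ u)
      obtain ⟨v', -, h2⟩ := h1.forth (β := ((2 * n : ℕ) : Ordinal.{0}))
        (by exact_mod_cast (by omega : 2 * n < 2 * n + 1)) (mem_univ v)
      have hin : ∀ {a : M × N}, a ∈ p → a ∈ insert (v, v') (insert (u, u') p) :=
        fun h => mem_insert_of_mem _ (mem_insert_of_mem _ h)
      have hu' : (u, u') ∈ insert (v, v') (insert (u, u') p) :=
        mem_insert_of_mem _ (mem_insert _ _)
      have hv' : (v, v') ∈ insert (v, v') (insert (u, u') p) := mem_insert _ _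
      refine ⟨u', ih h2 (hin hx) (hin hy) hu' hu, v', ih h2 (hin hx) (hin hy) hv' hv, ?_⟩
      rw [← bt_eq_of_atEq h2.atEq (hin hz) hu', ← bt_eq_of_atEq h2.atEq (hin hz) hv']
      exact hne

/-- `mdl` is respected by the equivalence of level `ω`. -/
theorem mdl_congr {S : L.Structure M} {S' : L.Structure N} {p : Set (M × N)}
    (h : BFR S S' univ univ Ordinal.omega0 p) {x y z : M} {x' y' z' : N} (hx : (x, x') ∈ p)
    (hy : (y, y') ∈ p) (hz : (z, z') ∈ p) : z ∈ mdl (bt S) x y ↔ z' ∈ mdl (bt S') x' y' := by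
  rw [mem_mdl_iff, mem_mdl_iff]
  constructor
  · rintro ⟨n, hn⟩
    exact ⟨n, mst_congr' n (h.mono (Ordinal.natCast_lt_omega0 _).le) hx hy hz hn⟩
  · rintro ⟨n, hn⟩
    exact ⟨n, mst_congr' n (h.swap.mono (Ordinal.natCast_lt_omega0 _).le) hx hy hz hn⟩

lemma nst_congr' (n : ℕ) : ∀ {M N : Type} {S : L.Structure M} {S' : L.Structure N}
    {p : Set (M × N)}, BFR S S' univ univ (Ordinal.omega0 + ((2 * n : ℕ) : Ordinal.{0})) p →
    ∀ {x y z : M} {x' y' z' : N}, (x, x') ∈ p → (y, y') ∈ p → (z, z') ∈ p →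
    z ∈ nst (bt S) x y n → z' ∈ nst (bt S') x' y' n := by
  induction n with
  | zero =>
    intro M N S S' p h x y z x' y' z' hx hy hz hzm
    rcases hzm with hzm | hzm
    · left
      exact (h.atEq.1 _ hz _ hx).mp hzm
    · right
      exact (h.atEq.1 _ hz _ hy).mp hzm
  | succ n ih =>
    intro M N S S' p h x y z x' y' z' hx hy hz hzm
    have hl1 : Ordinal.omega0 + ((2 * n + 1 : ℕ) : Ordinal.{0}) <
        Ordinal.omega0 + ((2 * (n + 1) : ℕ) : Ordinal.{0}) := by
      apply add_lt_add_right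
      exact_mod_cast (by omega : 2 * n + 1 < 2 * (n + 1))
    have hl2 : Ordinal.omega0 + ((2 * n : ℕ) : Ordinal.{0}) <
        Ordinal.omega0 + ((2 * n + 1 : ℕ) : Ordinal.{0}) := by
      apply add_lt_add_right
      exact_mod_cast (by omega : 2 * n < 2 * n + 1)
    have two : ∀ u v : M, ∃ u' v', BFR S S' univ univ
        (Ordinal.omega0 + ((2 * n : ℕ) : Ordinal.{0})) (insert (v, v') (insert (u, u') p)) := by
      intro u v
      obtain ⟨u', -, h1⟩ := h.forth hl1 (mem_univ u)
      obtain ⟨v', -, h2⟩ := h1.forth hl2 (mem_univ v)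
      exact ⟨u', v', h2⟩
    rcases hzm with hzm | ⟨u, hu, v, hv, hne⟩ | ⟨u, hu, v, hv, hne⟩
    · left
      exact ih (h.mono (hl2.trans hl1).le) hx hy hz hzm
    · right; left
      obtain ⟨u', v', h2⟩ := two u v
      have hin : ∀ {a : M × N}, a ∈ p → a ∈ insert (v, v') (insert (u, u') p) :=
        fun h => mem_insert_of_mem _ (mem_insert_of_mem _ h)
      have hu' : (u, u') ∈ insert (v, v') (insert (u, u') p) :=
        mem_insert_of_mem _ (mem_insert _ _)
      have hv' : (v, v') ∈ insert (v, v') (insert (u, u') p) := mem_insert _ _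
      refine ⟨u', ih h2 (hin hx) (hin hy) hu' hu, v', ih h2 (hin hx) (hin hy) hv' hv, ?_⟩
      rw [← bt_eq_of_atEq h2.atEq (hin hz) hu', ← bt_eq_of_atEq h2.atEq (hin hz) hv']
      exact hne
    · right; right
      obtain ⟨u', v', h2⟩ := two u v
      have hin : ∀ {a : M × N}, a ∈ p → a ∈ insert (v, v') (insert (u, u') p) :=
        fun h => mem_insert_of_mem _ (mem_insert_of_mem _ h)
      have hu' : (u, u') ∈ insert (v, v') (insert (u, u') p) :=
        mem_insert_of_mem _ (mem_insert _ _)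
      have hv' : (v, v') ∈ insert (v, v') (insert (u, u') p) := mem_insert _ _
      refine ⟨u', ih h2 (hin hx) (hin hy) hu' hu, v', ih h2 (hin hx) (hin hy) hv' hv, ?_⟩
      rw [← mdl_congr (h2.mono le_self_add) hu' (hin hz) hv']
      exact hne

/-- `node` is respected by the equivalence of level `ω + ω`. -/
theorem node_congr {S : L.Structure M} {S' : L.Structure N} {p : Set (M × N)}
    (h : BFR S S' univ univ (Ordinal.omega0 + Ordinal.omega0) p) {x y z : M} {x' y' z' : N}
    (hx : (x, x') ∈ p) (hy : (y, y') ∈ p) (hz : (z, z') ∈ p) :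
    z ∈ node (bt S) x y ↔ z' ∈ node (bt S') x' y' := by
  rw [mem_node_iff, mem_node_iff]
  have hl : ∀ n : ℕ, Ordinal.omega0 + ((2 * n : ℕ) : Ordinal.{0}) ≤
      Ordinal.omega0 + Ordinal.omega0 := fun n =>
    (add_lt_add_right (Ordinal.natCast_lt_omega0 _) _).le
  constructor
  · rintro ⟨n, hn⟩
    exact ⟨n, nst_congr' n (h.mono (hl n)) hx hy hz hn⟩
  · rintro ⟨n, hn⟩
    exact ⟨n, nst_congr' n (h.swap.mono (hl n)) hx hy hz hn⟩

end Pool.Agent.Helper97.LO
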